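import Pool.Agent.H5.RPG.Stmts

/-!
# Row RRE of the board `rpg`
-/

set_option autoImplicit false

namespace Pool.RPG

open Filter TMLib Pool.PG

theorem rre_thm (h1 : RCLStmt) : RREStmt := by
  intro V ι i o e s W hW
  obtain ⟨w1, w2, _, w4⟩ := h1 V ι i o e s W
  obtain ⟨e1, e2, _, e4⟩ := h1 V ι i o e s ∅
  have k1 : KS i o e s W ⊆ KS i o e s ∅ := by
    rintro v ⟨S, hv, hS⟩
    exact ⟨S, hv, fun u hu => ⟨fun h => h.elim, (hS u hu).2⟩⟩
  have k2 : KS i o e s ∅ ⊆ KS i o e s W := by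
    rintro v ⟨S, hv, hS⟩
    refine ⟨S, hv, fun u hu => ⟨fun h => ?_, (hS u hu).2⟩⟩
    exact hW u h (e1 ⟨S, hu, hS⟩)
  have s1 : RS i o e s W ⊆ RS i o e s ∅ :=
    w4 _ (k1.trans e1) fun u _ hp => e2 u (fun h => h.elim) hp
  have s2 : RS i o e s ∅ ⊆ RS i o e s W := by
    refine e4 _ (k2.trans w1) fun u _ hp => ?_
    by_cases hu : u ∈ W
    · exfalso
      refine hW u hu (e2 u (fun h => h.elim) ?_)
      unfold Pre at hp ⊢
      split_ifs with ho
      · rw [if_pos ho] at hp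
        obtain ⟨j, hj⟩ := hp
        exact ⟨j, s1 hj⟩
      · rw [if_neg ho] at hp
        exact fun j => s1 (hp j)
    · exact w2 u hu hp
  exact Set.Subset.antisymm s1 s2

end Pool.RPG
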